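import Mathlib

/-!
For all `n` and all `k` with `1 ≤ k ≤ n!` there are `n` distinct elements of a group whose products
in all orders take exactly `k` values.
-/

namespace Pool.Agent.Results.MP_71df81_al.AllNumbersOfProducts

/-- The set of the products of `g 0, ..., g (n-1)` in all orders. -/
def products {G : Type} [Group G] {n : ℕ} (g : Fin n → G) : Set G :=
  {x | ∃ σ : Equiv.Perm (Fin n), x = (List.ofFn fun i => g (σ i)).prod}

/-! ### factorial base -/

/-- the sum of `a!` over the inversions of the list, where `a` is the larger element -/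
def wt : List ℕ → ℕ
  | [] => 0
  | a :: l => (l.map fun b => if b < a then a.factorial else 0).sum + wt l

theorem wt_insert (n : ℕ) (l1 l2 : List ℕ) (h1 : ∀ a ∈ l1, a < n) (h2 : ∀ a ∈ l2, a < n) :
    wt (l1 ++ n :: l2) = wt (l1 ++ l2) + l2.length * n.factorial := by
  induction l1 with
  | nil =>
    simp only [List.nil_append, wt]
    have h : (l2.map fun b => if b < n then n.factorial else 0) =
        l2.map fun _ => n.factorial := by
      apply List.map_congr_left
      intro b hb
      rw [if_pos (h2 b hb)]
    rw [h, List.map_const', List.sum_replicate, smul_eq_mul, add_comm]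
  | cons a l1 ih =>
    have ha : ¬ n < a := by
      have := h1 a (by simp)
      omega
    simp only [List.cons_append, wt]
    rw [ih fun b hb => h1 b (by simp [hb])]
    simp only [List.map_append, List.map_cons, List.sum_append, List.sum_cons, if_neg ha]
    ring

theorem exists_list (n : ℕ) : ∀ r, r < n.factorial → ∃ l : List ℕ,
    l.Perm (List.range n) ∧ wt l = r := by
  induction n with
  | zero =>
    intro r hr
    refine ⟨[], List.Perm.refl _, ?_⟩
    rw [Nat.factorial_zero] at hr
    simp [wt]
    omega
  | succ n ih =>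
    intro r hr
    have hpos := n.factorial_pos
    obtain ⟨l, hl, hw⟩ := ih (r % n.factorial) (Nat.mod_lt _ hpos)
    have hx : r / n.factorial ≤ n := by
      rw [Nat.factorial_succ] at hr
      exact Nat.lt_succ_iff.1 ((Nat.div_lt_iff_lt_mul hpos).2 hr)
    have hlen : l.length = n := by rw [hl.length_eq, List.length_range]
    have hlt : ∀ a ∈ l, a < n := fun a ha => List.mem_range.1 (hl.mem_iff.1 ha)
    have e : l = l.take (n - r / n.factorial) ++ l.drop (n - r / n.factorial) :=
      (List.take_append_drop _ _).symm
    refine ⟨l.take (n - r / n.factorial) ++ n :: l.drop (n - r / n.factorial), ?_, ?_⟩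
    · rw [List.range_succ]
      refine List.perm_middle.trans ?_
      rw [← e]
      exact (List.Perm.cons n hl).trans (List.perm_append_singleton n _).symm
    · rw [wt_insert, ← e, hw, List.length_drop, hlen]
      · have : n - (n - r / n.factorial) = r / n.factorial := Nat.sub_sub_self hx
        rw [this, add_comm, Nat.div_add_mod' r n.factorial]
      · intro a ha
        exact hlt a (List.mem_of_mem_take ha)
      · intro a ha
        exact hlt a (List.mem_of_mem_drop ha)

/-! ### the group -/

/-- the bilinear form -/
noncomputable def B (k : ℕ) : (ℕ →₀ ℤ) →+ (ℕ →₀ ℤ) →+ ZMod k :=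
  Finsupp.liftAddHom fun j => zmultiplesHom _ (Finsupp.liftAddHom fun i =>
    zmultiplesHom _ (if i < j then ((j.factorial : ℕ) : ZMod k) else 0))

theorem B_single (k i j : ℕ) : B k (Finsupp.single j 1) (Finsupp.single i 1) =
    if i < j then ((j.factorial : ℕ) : ZMod k) else 0 := by
  simp [B]

/-- a nilpotent group of class two -/
@[ext] structure Gp (k : ℕ) where
  /-- abelianised part -/
  u : ℕ →₀ ℤ
  /-- central part -/
  s : ZMod k

namespace Gp

variable {k : ℕ}

noncomputable instance : Mul (Gp k) := ⟨fun a b => ⟨a.u + b.u, a.s + b.s + B k a.u b.u⟩⟩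
noncomputable instance : One (Gp k) := ⟨⟨0, 0⟩⟩
noncomputable instance : Inv (Gp k) := ⟨fun a => ⟨-a.u, -a.s + B k a.u a.u⟩⟩

theorem mul_u (a b : Gp k) : (a * b).u = a.u + b.u := rfl
theorem mul_s (a b : Gp k) : (a * b).s = a.s + b.s + B k a.u b.u := rfl
theorem one_u : (1 : Gp k).u = 0 := rfl
theorem one_s : (1 : Gp k).s = 0 := rfl
theorem inv_u (a : Gp k) : (a⁻¹).u = -a.u := rfl
theorem inv_s (a : Gp k) : (a⁻¹).s = -a.s + B k a.u a.u := rfl

noncomputable instance : Group (Gp k) := Group.ofLeftAxioms
  (by
    intro a b c
    refine Gp.ext ?_ ?_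
    · simp only [mul_u, add_assoc]
    · simp only [mul_s, mul_u, map_add, AddMonoidHom.add_apply]
      ring)
  (by
    intro a
    refine Gp.ext ?_ ?_
    · simp only [mul_u, one_u, zero_add]
    · simp [mul_s, one_s, one_u])
  (by
    intro a
    refine Gp.ext ?_ ?_
    · simp only [mul_u, inv_u, one_u, neg_add_cancel]
    · simp [mul_s, inv_s, inv_u, one_s])

/-- the generators -/
noncomputable def gen (k j : ℕ) : Gp k := ⟨Finsupp.single j 1, 0⟩

theorem prod_u (l : List ℕ) : (l.map (gen k)).prod.u =
    (l.map fun j => (Finsupp.single j 1 : ℕ →₀ ℤ)).sum := by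
  induction l with
  | nil => rfl
  | cons a l ih => rw [List.map_cons, List.prod_cons, mul_u, ih, List.map_cons, List.sum_cons]; rfl

theorem prod_s (l : List ℕ) : (l.map (gen k)).prod.s = ((wt l : ℕ) : ZMod k) := by
  induction l with
  | nil => simp [wt, one_s]
  | cons a l ih =>
    rw [List.map_cons, List.prod_cons, mul_s, ih, prod_u]
    have h : ∀ m : List ℕ, B k (Finsupp.single a 1)
        ((m.map fun j => (Finsupp.single j 1 : ℕ →₀ ℤ)).sum) =
        (((m.map fun b => if b < a then a.factorial else 0).sum : ℕ) : ZMod k) := by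
      intro m
      induction m with
      | nil => simp
      | cons b m ih2 =>
        simp only [List.map_cons, List.sum_cons, map_add, Nat.cast_add, ih2, B_single]
        split_ifs <;> simp
    change 0 + _ + B k (Finsupp.single a 1) _ = _
    rw [h, zero_add, wt]
    push_cast
    ring

end Gp

open Gp

theorem ofFn_eq {n : ℕ} (k : ℕ) (σ : Equiv.Perm (Fin n)) :
    (List.ofFn fun i => gen k (σ i : ℕ)) = (List.ofFn fun i => (σ i : ℕ)).map (gen k) := by
  rw [List.map_ofFn]; rfl

theorem exists_perm {n : ℕ} (l : List ℕ) (hl : l.Perm (List.range n)) :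
    ∃ σ : Equiv.Perm (Fin n), (List.ofFn fun i => (σ i : ℕ)) = l := by
  have hlen : l.length = n := by rw [hl.length_eq, List.length_range]
  have hlt : ∀ a ∈ l, a < n := fun a ha => List.mem_range.1 (hl.mem_iff.1 ha)
  have hnd : l.Nodup := hl.nodup_iff.2 List.nodup_range
  let f : Fin n → Fin n := fun i => ⟨l[(i : ℕ)]'(by omega), hlt _ (List.getElem_mem _)⟩
  have hf : Function.Injective f := by
    intro i j hij
    have h1 : l[(i : ℕ)]'(by omega) = l[(j : ℕ)]'(by omega) := congrArg Fin.val hij
    exact Fin.ext ((hnd.getElem_inj_iff).1 h1)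
  refine ⟨Equiv.ofBijective f (Finite.injective_iff_bijective.1 hf), ?_⟩
  apply List.ext_getElem
  · simp [hlen]
  · intro i h1 h2
    simp [f]

/-- For every `n` and every `k` with `1 ≤ k ≤ n!` there are a group `G` and pairwise distinct
elements `g 0, ..., g (n-1)` of `G` whose products in all orders form a set of exactly `k`
elements. -/
theorem result : ∀ n k : ℕ, 1 ≤ k → k ≤ n.factorial →
    ∃ (G : Type) (_ : Group G) (g : Fin n → G), Function.Injective g ∧
      (products g).ncard = k := by
  intro n k hk1 hk2
  have : NeZero k := ⟨by omega⟩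
  refine ⟨Gp k, inferInstance, fun i => gen k i, ?_, ?_⟩
  · intro i j hij
    have h1 : (Finsupp.single (i : ℕ) 1 : ℕ →₀ ℤ) = Finsupp.single (j : ℕ) 1 :=
      congrArg Gp.u hij
    exact Fin.ext ((Finsupp.single_left_inj one_ne_zero).1 h1)
  · let c : ℕ →₀ ℤ := ((List.range n).map fun j => (Finsupp.single j 1 : ℕ →₀ ℤ)).sum
    have hset : products (fun i : Fin n => gen k i) = (fun s : ZMod k => (⟨c, s⟩ : Gp k)) ''
        Set.univ := by
      ext x
      constructor
      · rintro ⟨σ, rfl⟩
        refine ⟨((wt (List.ofFn fun i => (σ i : ℕ)) : ℕ) : ZMod k), trivial, ?_⟩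
        · rw [ofFn_eq]
          refine Gp.ext ?_ ?_
          · rw [prod_u]
            change ((List.range n).map fun j => (Finsupp.single j 1 : ℕ →₀ ℤ)).sum = _
            apply List.Perm.sum_eq
            apply List.Perm.map
            rw [List.perm_ext_iff_of_nodup List.nodup_range]
            · intro a
              rw [List.mem_range, List.mem_ofFn]
              constructor
              · intro ha
                exact ⟨σ.symm ⟨a, ha⟩, by simp⟩
              · rintro ⟨i, rfl⟩
                exact (σ i).2
            · rw [List.nodup_ofFn]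
              intro i j hij
              exact σ.injective (Fin.ext hij)
          · rw [prod_s]
      · rintro ⟨s, -, rfl⟩
        obtain ⟨l, hl, hw⟩ := exists_list n s.val (lt_of_lt_of_le (ZMod.val_lt s) hk2)
        obtain ⟨σ, hσ⟩ := exists_perm l hl
        refine ⟨σ, ?_⟩
        rw [ofFn_eq, hσ]
        refine Gp.ext ?_ ?_
        · rw [prod_u]
          exact (List.Perm.sum_eq (hl.map _)).symm
        · rw [prod_s, hw]
          change s = _
          rw [ZMod.natCast_zmod_val]
    rw [hset, Set.ncard_image_of_injective _ (fun s t h => congrArg Gp.s h), Set.ncard_univ,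
      Nat.card_eq_fintype_card, ZMod.card]

end Pool.Agent.Results.MP_71df81_al.AllNumbersOfProducts
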